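import Mathlib

/-!
# Tilings of the plane by scattered disconnected tiles (MP_2d2d9d_co)
-/

set_option autoImplicit false
set_option linter.style.longLine false

namespace Pool.Agent.Results.MP_2d2d9d_co.Scattered

open Set Metric Equiv

abbrev E := EuclideanSpace ℝ (Fin 2)

/-- A countable family of closed sets that covers the plane, with pairwise disjoint interiors. -/
def Tiling (T : Set (Set E)) : Prop :=
  T.Countable ∧ (∀ A ∈ T, IsClosed A) ∧ ⋃₀ T = univ ∧
    T.Pairwise fun A B => Disjoint (interior A) (interior B)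

/-- The isometry `f` maps the family `T` onto itself. -/
def Sym (T : Set (Set E)) (f : E ≃ᵢ E) : Prop := (fun C => f '' C) '' T = T

/-- The symmetry group of the family `T` acts transitively on it. -/
def Isohedral (T : Set (Set E)) : Prop := ∀ A ∈ T, ∀ B ∈ T, ∃ f, Sym T f ∧ f '' A = B

/-- The tile `A` is the union of the `k` pairwise disjoint closed disks `C i`, which fall into
exactly `t` classes (given by `c`) under the symmetries of `T` that map `A` onto itself. -/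
def Cl (T : Set (Set E)) {k t : ℕ} (A : Set E) (C : Fin k → Set E) (c : Fin k → Fin t) : Prop :=
  (∀ i, Nonempty (C i ≃ₜ closedBall (0 : E) 1)) ∧
    (∀ i j, i ≠ j → Disjoint (C i) (C j)) ∧ A = ⋃ i, C i ∧
    c.Surjective ∧ ∀ i j, c i = c j ↔ ∃ f, Sym T f ∧ f '' A = A ∧ f '' C i = C j

/-- A `t`-class `k`-component tiling. -/
def ClassTiling (k t : ℕ) (T : Set (Set E)) : Prop :=
  Tiling T ∧ Isohedral T ∧ ∀ A ∈ T, ∃ (C : Fin k → Set E) (c : Fin k → Fin t), Cl T A C c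

/-- The sets `C i` are convex of diameter at most `1`, any two of them are at distance more than
`R`, and two of them are congruent if and only if they belong to the same class of `c`. -/
def Good (R : ℝ) {k t : ℕ} (C : Fin k → Set E) (c : Fin k → Fin t) : Prop :=
  (∀ i, Convex ℝ (C i)) ∧ (∀ i, ∀ x ∈ C i, ∀ y ∈ C i, dist x y ≤ 1) ∧
    (∀ i j, i ≠ j → ∀ x ∈ C i, ∀ y ∈ C j, R < dist x y) ∧
    ∀ i j, (∃ f : E ≃ᵢ E, f '' C i = C j) ↔ c i = c j

theorem Sym.trans {T : Set (Set E)} {f g : E ≃ᵢ E} (a : Sym T f) (b : Sym T g) :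
    Sym T (f.trans g) := by
  have := congrArg (fun T => (fun C => g '' C) '' T) a
  simp only [image_image] at this
  exact this.trans b

theorem Sym.symm {T : Set (Set E)} {f : E ≃ᵢ E} (a : Sym T f) : Sym T f.symm := by
  have := congrArg (fun T => (fun C => f.symm '' C) '' T) a
  simp only [image_image, f.symm_apply_apply, image_id'] at this
  exact this.symm

theorem Cl.map {T : Set (Set E)} {k t : ℕ} {A : Set E} {C : Fin k → Set E} {c : Fin k → Fin t}
    (h : Cl T A C c) {g : E ≃ᵢ E} (s : Sym T g) : Cl T (g '' A) (fun i => g '' C i) c := by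
  obtain ⟨a, b, e, hc, h⟩ := h
  refine ⟨fun i => ⟨(g.toHomeomorph.image _).symm.trans (a i).some⟩,
    fun i j ne => (disjoint_image_iff g.injective).mpr (b i j ne), by rw [e, image_iUnion], hc,
    fun i j => (h i j).trans ⟨fun ⟨f, p, q, r⟩ => ⟨g.symm.trans (f.trans g), s.symm.trans (p.trans s),
      ?_, ?_⟩, fun ⟨f, p, q, r⟩ => ⟨g.trans (f.trans g.symm), s.trans (p.trans s.symm), ?_, ?_⟩⟩⟩
  · conv_rhs => rw [← q]
    simp [image_image]
  · simp [← r, image_image]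
  · have := congrArg (g.symm '' ·) q
    simp only [image_image, g.symm_apply_apply, image_id'] at this
    exact this
  · have := congrArg (g.symm '' ·) r
    simp only [image_image, g.symm_apply_apply, image_id'] at this
    exact this

theorem convex_image (g : E ≃ᵢ E) {A : Set E} (h : Convex ℝ A) : Convex ℝ (g '' A) := by
  have h2 := Convex.affine_image (f := g.toRealAffineIsometryEquiv.toAffineEquiv.toAffineMap) h
  simpa using h2

theorem Good.map {R : ℝ} {k t : ℕ} {C : Fin k → Set E} {c : Fin k → Fin t} (h : Good R C c)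
    (g : E ≃ᵢ E) : Good R (fun i => g '' C i) c := by
  obtain ⟨h1, h2, h3, h4⟩ := h
  refine ⟨fun i => convex_image g (h1 i), ?_, ?_, fun i j => ⟨?_, ?_⟩⟩
  · rintro i _ ⟨x, hx, rfl⟩ _ ⟨y, hy, rfl⟩
    rw [g.dist_eq]
    exact h2 i x hx y hy
  · rintro i j ne _ ⟨x, hx, rfl⟩ _ ⟨y, hy, rfl⟩
    rw [g.dist_eq]
    exact h3 i j ne x hx y hy
  · rintro ⟨f, hf⟩
    refine (h4 i j).1 ⟨g.trans (f.trans g.symm), ?_⟩
    have := congrArg (g.symm '' ·) hf
    simp only [image_image, g.symm_apply_apply, image_id'] at this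
    exact this
  · intro e
    obtain ⟨f, hf⟩ := (h4 i j).2 e
    exact ⟨g.symm.trans (f.trans g), by simp [← hf, image_image]⟩

noncomputable def co (p : E) : Fin 3 → ℝ := ![p 0 - p 1 / √3, 2 * p 1 / √3, -p 0 - p 1 / √3]

noncomputable def pt (x : Fin 3 → ℝ) : E := !₂[x 0 + x 1 / 2, √3 / 2 * x 1]

theorem co_sum (p : E) : co p 0 + co p 1 + co p 2 = 0 := by simp [co]; ring

theorem co_pt {x : Fin 3 → ℝ} (h : x 0 + x 1 + x 2 = 0) : co (pt x) = x := by
  have : √3 ≠ 0 := by positivity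
  ext i
  fin_cases i <;> simp [co, pt] <;> field_simp <;> linarith

theorem pt_co (p : E) : pt (co p) = p := by
  have : √3 ≠ 0 := by positivity
  ext i
  fin_cases i <;> simp [co, pt] <;> field_simp
  ring

theorem co_add (p q : E) : co (p + q) = co p + co q := by
  ext i
  fin_cases i <;> simp [co] <;> ring

theorem co_sub (p q : E) : co (p - q) = co p - co q := by
  ext i
  fin_cases i <;> simp [co] <;> ring

theorem nsq (p : E) : 2 * ‖p‖ ^ 2 = ∑ i, co p i ^ 2 := by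
  have : √3 ≠ 0 := by positivity
  have h : √3 ^ 2 = 3 := Real.sq_sqrt (by norm_num)
  rw [EuclideanSpace.norm_sq_eq]
  simp [Fin.sum_univ_three, co]
  field_simp
  ring_nf
  rw [h]
  ring

theorem psum (σ : Perm (Fin 3)) {R : Type} [AddCommMonoid R] (x : Fin 3 → R) :
    x (σ 0) + x (σ 1) + x (σ 2) = x 0 + x 1 + x 2 := by
  simpa only [Fin.sum_univ_three] using Equiv.sum_comp σ x

abbrev H := Perm (Fin 3) × ℤˣ

noncomputable def F0 (h : H) (p : E) : E := pt fun i => (h.2 : ℤ) * co p (h.1 i)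

theorem co_F0 (h : H) (p : E) (i : Fin 3) : co (F0 h p) i = (h.2 : ℤ) * co p (h.1 i) := by
  rw [F0, co_pt]
  rw [← mul_add, ← mul_add, psum, co_sum, mul_zero]

theorem co_inj {p q : E} (h : ∀ i, co p i = co q i) : p = q := by rw [← pt_co p, funext h, pt_co]

theorem F0_F0 (h g : H) (p : E) : F0 h (F0 g p) = F0 (g * h) p :=
  co_inj fun i => by simp [co_F0]; ring

theorem F0_sub (h : H) (p q : E) : F0 h (p - q) = F0 h p - F0 h q :=
  co_inj fun i => by simp [co_F0, co_sub]; ring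

theorem F0_norm (h : H) (p : E) : ‖F0 h p‖ = ‖p‖ := by
  have a := nsq (F0 h p)
  have : ((h.2 : ℤ) : ℝ) ^ 2 = 1 := by rcases Int.units_eq_one_or h.2 with e | e <;> simp [e]
  simp only [co_F0, mul_pow, this, one_mul] at a
  rw [Equiv.sum_comp h.1 fun i => co p i ^ 2, ← nsq] at a
  exact (pow_left_inj₀ (by positivity) (by positivity) two_ne_zero).mp (by linarith)

noncomputable def F (h : H) : E ≃ᵢ E :=
  IsometryEquiv.mk' (F0 h) (F0 h⁻¹) (fun p => by rw [F0_F0]; exact co_inj fun i => by simp [co_F0])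
    (Isometry.of_dist_eq fun p q => by rw [dist_eq_norm, ← F0_sub, F0_norm, dist_eq_norm])

theorem chamber {x y : Fin 3 → ℝ} (h : H) (e : ∀ i, y i = (h.2 : ℤ) * x (h.1 i))
    (s : x 0 + x 1 + x 2 = 0) (a : 0 < x 1) (b : x 1 < x 0) (c : 0 ≤ y 1) (d : y 1 ≤ y 0) :
    h = 1 := by
  obtain ⟨σ, ε⟩ := h
  have : ∀ σ : Perm (Fin 3), σ = 1 ∨ (σ 0 = 0 ∧ σ 1 = 2) ∨ (σ 0 = 1 ∧ σ 1 = 0) ∨
    (σ 0 = 1 ∧ σ 1 = 2) ∨ (σ 0 = 2 ∧ σ 1 = 0) ∨ (σ 0 = 2 ∧ σ 1 = 1) := by decide
  rw [e] at c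
  rw [e, e] at d
  rcases Int.units_eq_one_or ε with rfl | rfl <;>
    rcases this σ with rfl | ⟨u, v⟩ | ⟨u, v⟩ | ⟨u, v⟩ | ⟨u, v⟩ | ⟨u, v⟩
  · rfl
  all_goals first | simp [u, v] at c d | simp at c d
  all_goals linarith

def Gen (p : E) : Prop := ∀ a b n : ℤ, (a ≠ 0 ∨ b ≠ 0) → a * co p 0 + b * co p 1 ≠ n

theorem gen : Dense {p | Gen p} := by
  have : {p | Gen p} = ⋂ v : {v : ℤ × ℤ × ℤ // v.1 ≠ 0 ∨ v.2.1 ≠ 0},
      (fun p => v.1.1 * co p 0 + v.1.2.1 * co p 1) ⁻¹' {(v.1.2.2 : ℝ)}ᶜ := by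
    ext p
    simp only [Gen, mem_iInter, Subtype.forall, Prod.forall]
    rfl
  rw [this]
  refine dense_iInter_of_isOpen (fun v => isOpen_compl_singleton.preimage ?_) ?_
  · simp only [co, Matrix.cons_val_zero, Matrix.cons_val_one]
    fun_prop
  · rintro ⟨⟨a, b, n⟩, h⟩
    let f : E →L[ℝ] ℝ := (a : ℝ) • EuclideanSpace.proj 0 +
      ((2 * b - a) / √3 : ℝ) • EuclideanSpace.proj 1
    have e : (fun p => a * co p 0 + b * co p 1) = f := by
      ext p
      simp [f, co]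
      ring
    refine (dense_compl_singleton _).preimage (e ▸ f.isOpenMap_of_ne_zero fun z => ?_)
    have x := congrFun e (pt ![1, 0, -1])
    have y := congrFun e (pt ![0, 1, -1])
    rw [co_pt (by simp), z] at x y
    simp at x y h
    tauto

theorem Gen.ne {p : E} (h : Gen p) {i j : Fin 3} (ij : i ≠ j) {a b : ℤ} (ab : a ≠ 0 ∨ b ≠ 0) (n : ℤ) :
    a * co p i + b * co p j ≠ n := by
  have s : co p 2 = -co p 0 - co p 1 := by linarith [co_sum p]
  intro e
  fin_cases i <;> fin_cases j <;> simp at ij e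
  · exact h a b n ab e
  · exact h (a - b) (-b) n (by omega) (by rw [← e, s]; push_cast; ring)
  · exact h b a n ab.symm (by rw [← e]; ring)
  · exact h (-b) (a - b) n (by omega) (by rw [← e, s]; push_cast; ring)
  · exact h (b - a) (-a) n (by omega) (by rw [← e, s]; push_cast; ring)
  · exact h (-a) (b - a) n (by omega) (by rw [← e, s]; push_cast; ring)


noncomputable def V (μ : Fin 3 → ℤ) : E := pt fun i => μ i

theorem co_V {μ : Fin 3 → ℤ} (h : μ 0 + μ 1 + μ 2 = 0) (i : Fin 3) : co (V μ) i = μ i := by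
  rw [V, co_pt (by exact_mod_cast h)]

theorem V_add (μ ν : Fin 3 → ℤ) : V (μ + ν) = V μ + V ν := by
  ext k
  fin_cases k <;> simp [V, pt] <;> ring

theorem V_zero : V 0 = 0 := by
  ext k
  fin_cases k <;> simp [V, pt]

variable {t : ℕ} {N : ℕ}

def K (N : ℕ) (i : Fin t) : Set E := {p | 0 ≤ co p 1 - N * (i + 1) ∧
  co p 1 - N * (i + 1) ≤ co p 0 - 2 * (N * (i + 1)) ∧
  (i : ℝ) ≤ t * (2 * co p 0 + co p 1 - 5 * (N * (i + 1))) ∧
  t * (2 * co p 0 + co p 1 - 5 * (N * (i + 1))) ≤ i + 1}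

theorem K_le {i : Fin t} {p : E} (h : p ∈ K N i) : 2 * co p 0 + co p 1 - 5 * (N * (i + 1)) ≤ 1 := by
  have a : (i : ℝ) + 1 ≤ t := by exact_mod_cast i.2
  have b : (0 : ℝ) < t := by exact_mod_cast i.pos
  exact le_of_mul_le_mul_left (by linarith [h.2.2.2]) b

def lam (N : ℕ) (i : Fin t) : Fin 3 → ℤ := ![2 * (N * (i + 1)), N * (i + 1), -3 * (N * (i + 1))]

theorem lam_sum (i : Fin t) : lam N i 0 + lam N i 1 + lam N i 2 = 0 := by
  simp [lam]
  ring

theorem K_near {i : Fin t} {p : E} (h : p ∈ K N i) (l : Fin 3) : |co p l - lam N i l| ≤ 1 := by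
  have b := K_le h
  have s : co p 2 = -co p 0 - co p 1 := by linarith [co_sum p]
  obtain ⟨c, d, -⟩ := h
  rw [abs_le]
  fin_cases l <;> simp [lam, s] <;> constructor <;> linarith

theorem nsq2 (p : E) : 4 * ‖p‖ ^ 2 = (2 * co p 0 + co p 1) ^ 2 + 3 * co p 1 ^ 2 := by
  have a := nsq p
  have s : co p 2 = -co p 0 - co p 1 := by linarith [co_sum p]
  rw [Fin.sum_univ_three, s] at a
  linarith

/-- Square of the diameter of the cell number `i`. -/
noncomputable def D (i : Fin t) : ℝ := (3 + ((i : ℝ) + 1) ^ 2) / (12 * (t : ℝ) ^ 2)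

theorem K_diam_le {i : Fin t} {p q : E} (hp : p ∈ K N i) (hq : q ∈ K N i) :
    ‖p - q‖ ^ 2 ≤ D i := by
  have b : (0 : ℝ) < t := by exact_mod_cast i.pos
  have h := nsq2 (p - q)
  simp only [co_sub, Pi.sub_apply] at h
  obtain ⟨a1, a2, a3, a4⟩ := hp
  obtain ⟨b1, b2, b3, b4⟩ := hq
  set u : ℝ := t * (2 * (co p 0 - co q 0) + (co p 1 - co q 1)) with hu
  set y : ℝ := 3 * t * (co p 1 - co q 1) with hy
  have hi : (0 : ℝ) ≤ i := by positivity
  have hu1 : u ≤ 1 := by rw [hu]; linarith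
  have hu2 : -1 ≤ u := by rw [hu]; linarith
  have c1 : 3 * (t * (co p 1 - N * (i + 1))) ≤ i + 1 := by
    have : t * (3 * (co p 1 - N * (i + 1))) ≤ t * (2 * co p 0 + co p 1 - 5 * (N * (i + 1))) :=
      mul_le_mul_of_nonneg_left (by linarith) b.le
    linarith
  have c2 : 3 * (t * (co q 1 - N * (i + 1))) ≤ i + 1 := by
    have : t * (3 * (co q 1 - N * (i + 1))) ≤ t * (2 * co q 0 + co q 1 - 5 * (N * (i + 1))) :=
      mul_le_mul_of_nonneg_left (by linarith) b.le
    linarith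
  have c3 : 0 ≤ t * (co p 1 - N * (i + 1)) := mul_nonneg b.le a1
  have c4 : 0 ≤ t * (co q 1 - N * (i + 1)) := mul_nonneg b.le b1
  have hy1 : y ≤ i + 1 := by rw [hy]; linarith
  have hy2 : -(i + 1) ≤ y := by rw [hy]; linarith
  have e : 12 * (t : ℝ) ^ 2 * ‖p - q‖ ^ 2 = 3 * u ^ 2 + y ^ 2 := by
    rw [hu, hy]
    linear_combination (3 * (t : ℝ) ^ 2) * h
  have u2 : u ^ 2 ≤ 1 := by nlinarith
  have y2 : y ^ 2 ≤ ((i : ℝ) + 1) ^ 2 := by nlinarith
  rw [D, le_div_iff₀ (by positivity)]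
  nlinarith

theorem K_diam_ge (N : ℕ) (i : Fin t) : ∃ p ∈ K N i, ∃ q ∈ K N i, ‖p - q‖ ^ 2 = D i := by
  have b : (0 : ℝ) < t := by exact_mod_cast i.pos
  have hi : (0 : ℝ) ≤ i := by positivity
  let x1 : ℝ := i / (2 * t)
  let x2 : ℝ := (i + 1) / (3 * t)
  have e1 : t * (2 * x1) = i := by simp only [x1]; field_simp
  have e2 : t * (3 * x2) = i + 1 := by simp only [x2]; field_simp
  have p1 : 0 ≤ x1 := by positivity
  have p2 : 0 ≤ x2 := by positivity
  set a : ℝ := N * ((i : ℝ) + 1) with ha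
  have c1 : co (pt ![2 * a + x1, a, -3 * a - x1]) = _ := co_pt (by simp; ring)
  have c2 : co (pt ![2 * a + x2, a + x2, -3 * a - 2 * x2]) = _ := co_pt (by simp; ring)
  refine ⟨pt ![2 * a + x1, a, -3 * a - x1], ?_, pt ![2 * a + x2, a + x2, -3 * a - 2 * x2], ?_, ?_⟩
  · simp only [K, mem_ofPred_eq, c1, Matrix.cons_val_zero, Matrix.cons_val_one, ← ha]
    refine ⟨?_, ?_, ?_, ?_⟩ <;> linarith
  · simp only [K, mem_ofPred_eq, c2, Matrix.cons_val_zero, Matrix.cons_val_one, ← ha]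
    refine ⟨?_, ?_, ?_, ?_⟩ <;> linarith
  · have h := nsq2 (pt ![2 * a + x1, a, -3 * a - x1] - pt ![2 * a + x2, a + x2, -3 * a - 2 * x2])
    simp only [co_sub, Pi.sub_apply, c1, c2, Matrix.cons_val_zero, Matrix.cons_val_one] at h
    rw [D, eq_div_iff (by positivity)]
    have h1 : 12 * (t : ℝ) ^ 2 * ‖pt ![2 * a + x1, a, -3 * a - x1] -
        pt ![2 * a + x2, a + x2, -3 * a - 2 * x2]‖ ^ 2 =
        3 * (t * (2 * x1) - t * (3 * x2)) ^ 2 + (t * (3 * x2)) ^ 2 := by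
      linear_combination (3 * (t : ℝ) ^ 2) * h
    rw [e1, e2] at h1
    linear_combination h1

theorem D_le_one (i : Fin t) : D i ≤ 1 := by
  have a : (i : ℝ) + 1 ≤ t := by exact_mod_cast i.2
  have b : (1 : ℝ) ≤ t := by exact_mod_cast i.pos
  have hi : (0 : ℝ) ≤ i := by positivity
  rw [D, div_le_one (by positivity)]
  nlinarith

theorem D_inj {i j : Fin t} (h : D i ≤ D j) : i ≤ j := by
  have b : (0 : ℝ) < t := by exact_mod_cast i.pos
  rw [D, D, div_le_div_iff_of_pos_right (by positivity)] at h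
  have h1 : ((i : ℝ) + 1) ≤ (j : ℝ) + 1 :=
    le_of_sq_le_sq (by linarith) (by positivity)
  have : (i : ℝ) ≤ j := by linarith
  exact_mod_cast this

theorem co_cont (j : Fin 3) : Continuous fun p => co p j := by
  fin_cases j <;> simp only [co] <;> simp <;> fun_prop

theorem K_closed (i : Fin t) : IsClosed (K N i) := by
  have := co_cont 0
  have := co_cont 1
  simp only [K, ofPred_and]
  refine .inter ?_ (.inter ?_ (.inter ?_ ?_)) <;> exact isClosed_le (by fun_prop) (by fun_prop)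

theorem K_bdd (i : Fin t) : Bornology.IsBounded (K N i) := by
  obtain ⟨p, hp, -⟩ := K_diam_ge N i
  refine (isBounded_closedBall (x := p) (r := 1)).subset fun q hq => ?_
  rw [mem_closedBall, dist_eq_norm]
  have := (K_diam_le hq hp).trans (D_le_one i)
  exact (sq_le_one_iff₀ (norm_nonneg _)).1 this

theorem K_int (i : Fin t) : (interior (K N i)).Nonempty := by
  have := co_cont 0
  have := co_cont 1
  have b : (0 : ℝ) < t := by exact_mod_cast i.pos
  have c : (0 : ℝ) < (i + 1 / 2) / t := by positivity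
  set a : ℝ := N * ((i : ℝ) + 1) with ha
  refine ⟨pt ![2 * a + 2 / 5 * ((i + 1 / 2) / t), a + 1 / 5 * ((i + 1 / 2) / t),
    -3 * a - 3 / 5 * ((i + 1 / 2) / t)], interior_maximal (t := {p | 0 < co p 1 - a ∧
      co p 1 - a < co p 0 - 2 * a ∧ (i : ℝ) < t * (2 * co p 0 + co p 1 - 5 * a) ∧
      t * (2 * co p 0 + co p 1 - 5 * a) < i + 1})
    (fun p ⟨a, b, c, d⟩ => And.intro a.le ⟨b.le, c.le, d.le⟩) ?_ ?_⟩
  · simp only [ofPred_and]
    refine .inter ?_ (.inter ?_ (.inter ?_ ?_)) <;> exact isOpen_lt (by fun_prop) (by fun_prop)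
  · have d : (t : ℝ) * ((i + 1 / 2) / t) = i + 1 / 2 := by field_simp
    rw [mem_ofPred_eq, co_pt (by simp; ring)]
    simp only [Matrix.cons_val_zero, Matrix.cons_val_one]
    refine ⟨?_, ?_, ?_, ?_⟩ <;> linarith

theorem K_convex (i : Fin t) : Convex ℝ (K N i) := fun p ⟨a, b, c, d⟩ q ⟨a', b', c', d'⟩ u v hu hv uv => by
  have e : ∀ j, co (u • p + v • q) j = u * co p j + v * co q j := fun j => by
    fin_cases j <;> simp [co] <;> ring
  obtain rfl : v = 1 - u := by linarith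
  simp only [K, mem_ofPred_eq, e]
  refine ⟨?_, ?_, ?_, ?_⟩
  · nlinarith [mul_nonneg hu a, mul_nonneg hv a']
  · nlinarith [mul_le_mul_of_nonneg_left b hu, mul_le_mul_of_nonneg_left b' hv]
  · nlinarith [mul_le_mul_of_nonneg_left c hu, mul_le_mul_of_nonneg_left c' hv]
  · nlinarith [mul_le_mul_of_nonneg_left d hu, mul_le_mul_of_nonneg_left d' hv]

theorem K_disk (i : Fin t) : Nonempty (K N i ≃ₜ closedBall (0 : E) 1) := by
  obtain ⟨f, -, h, -⟩ := exists_homeomorph_image_interior_closure_frontier_eq_unitBall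
    (K_convex i) (K_int i) (K_bdd i)
  rw [(K_closed i).closure_eq] at h
  exact ⟨h ▸ f.image _⟩

def C (N : ℕ) (j : H × Fin t) : Set E := F j.1 ⁻¹' K N j.2

theorem F_C (g : H) (j : H × Fin t) : F g '' C N j = C N (g⁻¹ * j.1, j.2) := by
  rw [← (F g).preimage_symm]
  ext p
  exact iff_of_eq (congrArg (· ∈ K N j.2) (F0_F0 j.1 g⁻¹ p))

theorem C_eq (j : H × Fin t) : C N j = (F j.1).symm '' K N j.2 := by
  rw [← (F j.1).symm.preimage_symm]
  rfl

/-- Different components of a tile are far apart. -/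
theorem C_far {i j : H × Fin t} (ne : i ≠ j) {p q : E} (a : p ∈ C N i) (b : q ∈ C N j) :
    ((N : ℝ) - 2) ≤ 2 * dist p q := by
  by_contra hlt
  push Not at hlt
  have hN : (2 : ℝ) < N := by linarith [dist_nonneg (x := p) (y := q)]
  have hN' : 2 < N := by exact_mod_cast hN
  have near : ∀ (j : H × Fin t) (p : E), p ∈ C N j → ∀ l,
      |co p l - ((j.1.2 : ℤ) * lam N j.2 (j.1.1⁻¹ l) : ℤ)| ≤ 1 := by
    intro j p hp l
    have h := K_near (show F0 j.1 p ∈ K N j.2 from hp) (j.1.1⁻¹ l)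
    rw [co_F0, Perm.coe_inv, apply_symm_apply] at h
    rcases Int.units_eq_one_or j.1.2 with e | e
    · simpa [e] using h
    · rw [e] at h ⊢
      rw [← abs_neg]
      convert h using 2
      push_cast
      simp
      ring
  have d : ∀ l, |co p l - co q l| < N - 2 := by
    intro l
    have h := nsq (p - q)
    have h1 : co (p - q) l ^ 2 ≤ ∑ i, co (p - q) i ^ 2 :=
      Finset.single_le_sum (f := fun i => co (p - q) i ^ 2) (fun i _ => sq_nonneg _)
        (Finset.mem_univ l)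
    rw [← h, ← dist_eq_norm] at h1
    rw [co_sub, Pi.sub_apply] at h1
    refine lt_of_le_of_lt (abs_le_of_sq_le_sq ?_ (by positivity)) hlt
    nlinarith [sq_nonneg (dist p q)]
  have eq : ∀ l, ((i.1.2 : ℤ) * lam N i.2 (i.1.1⁻¹ l) : ℤ) = (j.1.2 : ℤ) * lam N j.2 (j.1.1⁻¹ l) := by
    intro l
    have h1 := near i p a l
    have h2 := near j q b l
    have h3 := d l
    have h4 : |(((i.1.2 : ℤ) * lam N i.2 (i.1.1⁻¹ l) : ℤ) : ℝ) -
        ((j.1.2 : ℤ) * lam N j.2 (j.1.1⁻¹ l) : ℤ)| < N := by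
      rw [abs_le] at h1 h2
      rw [abs_lt] at h3 ⊢
      constructor <;> linarith
    have h5 : |((i.1.2 : ℤ) * lam N i.2 (i.1.1⁻¹ l) : ℤ) -
        ((j.1.2 : ℤ) * lam N j.2 (j.1.1⁻¹ l) : ℤ)| < N := by exact_mod_cast h4
    have dv : ∀ (i : Fin t) (m : Fin 3), (N : ℤ) ∣ lam N i m := by
      intro i m
      fin_cases m <;> simp only [lam]
      · exact ⟨2 * (i + 1), by simp; ring⟩
      · exact ⟨(i + 1), by simp⟩
      · exact ⟨-3 * (i + 1), by simp; ring⟩
    have h6 : (N : ℤ) ∣ ((i.1.2 : ℤ) * lam N i.2 (i.1.1⁻¹ l) : ℤ) -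
        ((j.1.2 : ℤ) * lam N j.2 (j.1.1⁻¹ l) : ℤ) :=
      dvd_sub (dvd_mul_of_dvd_right (dv _ _) _) (dvd_mul_of_dvd_right (dv _ _) _)
    exact sub_eq_zero.1 (Int.eq_zero_of_abs_lt_dvd h6 h5)
  have posN : (0 : ℝ) < N := by linarith
  have x : (0 : ℝ) ≤ i.2 := by positivity
  have y : (0 : ℝ) ≤ j.2 := by positivity
  have x' : (0 : ℝ) < N * (i.2 + 1) := by positivity
  have y' : (0 : ℝ) < N * (j.2 + 1) := by positivity
  have e : i.1⁻¹ * j.1 = 1 := chamber (x := fun l => (lam N i.2 l : ℝ))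
    (y := fun l => (lam N j.2 l : ℝ)) _ (fun l => by
      have h := eq (j.1.1 l)
      rw [Perm.coe_inv, Perm.coe_inv, symm_apply_apply] at h
      have h' : lam N j.2 l = (((i.1⁻¹ * j.1).2 : ℤˣ) : ℤ) * lam N i.2 ((i.1⁻¹ * j.1).1 l) := by
        change _ = _ * lam N i.2 (i.1.1.symm (j.1.1 l))
        rcases Int.units_eq_one_or i.1.2 with e | e <;>
          rcases Int.units_eq_one_or j.1.2 with e' | e' <;> simp [e, e'] at h ⊢ <;> linarith
      exact_mod_cast h')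
    (by exact_mod_cast lam_sum i.2) (by simp [lam]; linarith) (by simp [lam]; linarith)
    (by simp [lam]; linarith) (by simp [lam]; linarith)
  rw [inv_mul_eq_one] at e
  have h := eq (i.1.1 1)
  rw [← e, Perm.coe_inv, symm_apply_apply] at h
  have h' : lam N i.2 1 = lam N j.2 1 := by
    rcases Int.units_eq_one_or i.1.2 with e | e <;> simpa [e] using h
  simp only [lam, Matrix.cons_val_one, Matrix.cons_val_zero] at h'
  have h'' : ((i.2 : ℕ) : ℤ) + 1 = ((j.2 : ℕ) : ℤ) + 1 :=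
    mul_left_cancel₀ (by omega : (N : ℤ) ≠ 0) h'
  exact ne (Prod.ext e (Fin.ext (by omega)))

theorem noncong {i j : H × Fin t} {f : E ≃ᵢ E} (h : f '' C N i = C N j) : i.2 = j.2 := by
  have key : ∀ {i j : H × Fin t} {f : E ≃ᵢ E}, f '' C N i = C N j → i.2 ≤ j.2 := by
    intro i j f h
    obtain ⟨p, hp, q, hq, e⟩ := K_diam_ge N i.2
    have a : (F i.1).symm p ∈ C N i := by simpa [C] using hp
    have b : (F i.1).symm q ∈ C N i := by simpa [C] using hq
    have a' : F j.1 (f ((F i.1).symm p)) ∈ K N j.2 := by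
      have : f ((F i.1).symm p) ∈ C N j := h ▸ mem_image_of_mem f a
      exact this
    have b' : F j.1 (f ((F i.1).symm q)) ∈ K N j.2 := by
      have : f ((F i.1).symm q) ∈ C N j := h ▸ mem_image_of_mem f b
      exact this
    have c := K_diam_le a' b'
    rw [← dist_eq_norm, (F j.1).dist_eq, f.dist_eq, (F i.1).symm.dist_eq, dist_eq_norm, e] at c
    exact D_inj c
  refine le_antisymm (key h) (key (f := f.symm) ?_)
  rw [← h, image_image]
  simp

/-! ### The tiles -/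

variable {G : Subgroup H}

/-- The tile with centre `V μ` and coset `g G`. -/
def Tl (G : Subgroup H) (N t : ℕ) (μ : Fin 3 → ℤ) (g : H) : Set E :=
  {p | ∃ h ∈ G, ∃ i : Fin t, F0 (g * h) (p - V μ) ∈ K N i}

/-- The tiling. -/
def TT (G : Subgroup H) (N t : ℕ) : Set (Set E) :=
  {A | ∃ (μ : Fin 3 → ℤ) (g : H), μ 0 + μ 1 + μ 2 = 0 ∧ A = Tl G N t μ g}

theorem Tl_eq (μ : Fin 3 → ℤ) (g : H) {g' : H} (hg : g⁻¹ * g' ∈ G) :
    Tl G N t μ g = Tl G N t μ g' := by
  ext p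
  constructor
  · rintro ⟨h, hh, i, hi⟩
    exact ⟨(g⁻¹ * g')⁻¹ * h, G.mul_mem (G.inv_mem hg) hh, i, by convert hi using 2; group⟩
  · rintro ⟨h, hh, i, hi⟩
    exact ⟨g⁻¹ * g' * h, G.mul_mem hg hh, i, by convert hi using 2; group⟩

theorem Tl_zero : Tl G N t 0 1 = ⋃ j : G × Fin t, C N ((j.1 : H), j.2) := by
  ext p
  simp only [Tl, V_zero, sub_zero, one_mul, mem_iUnion, Prod.exists, Subtype.exists]
  exact ⟨fun ⟨h, hh, i, hi⟩ => ⟨h, hh, i, hi⟩, fun ⟨h, hh, i, hi⟩ => ⟨h, hh, i, hi⟩⟩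

theorem Tl_closed (μ : Fin 3 → ℤ) (g : H) : IsClosed (Tl G N t μ g) := by
  have : Tl G N t μ g = ⋃ j : G × Fin t, (fun p => F (g * j.1) (p - V μ)) ⁻¹' K N j.2 := by
    ext p
    simp only [Tl, mem_iUnion, Prod.exists, Subtype.exists]
    exact ⟨fun ⟨h, hh, i, hi⟩ => ⟨h, hh, i, hi⟩, fun ⟨h, hh, i, hi⟩ => ⟨h, hh, i, hi⟩⟩
  rw [this]
  refine isClosed_iUnion_of_finite fun j => (K_closed _).preimage ?_
  exact (F _).continuous.comp (continuous_id.sub continuous_const)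

theorem sym_of {T : Set (Set E)} {f : E ≃ᵢ E} (h : ∀ A ∈ T, f '' A ∈ T)
    (h' : ∀ A ∈ T, f.symm '' A ∈ T) : Sym T f :=
  (image_subset_iff.mpr h).antisymm fun A a => ⟨_, h' A a, by simp [image_image]⟩

theorem V_neg (μ : Fin 3 → ℤ) : V (-μ) = -V μ := by
  rw [eq_neg_iff_add_eq_zero, ← V_add, neg_add_cancel, V_zero]

theorem add_Tl (μ ν : Fin 3 → ℤ) (g : H) : (V μ + ·) '' Tl G N t ν g = Tl G N t (μ + ν) g := by
  ext p
  simp only [image_add_left, mem_preimage, Tl, mem_ofPred_eq, V_add]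
  have : -V μ + p - V ν = p - (V μ + V ν) := by abel
  rw [this]

theorem sym_add {μ : Fin 3 → ℤ} (h : μ 0 + μ 1 + μ 2 = 0) :
    Sym (TT G N t) (IsometryEquiv.addLeft (V μ)) := by
  refine sym_of ?_ ?_
  · rintro _ ⟨ν, g, hν, rfl⟩
    exact ⟨μ + ν, g, by simp; omega, add_Tl _ _ _⟩
  · rintro _ ⟨ν, g, hν, rfl⟩
    refine ⟨-μ + ν, g, by simp; omega, ?_⟩
    rw [← add_Tl, V_neg]
    rfl

theorem F_Tl (g' g : H) {ν : Fin 3 → ℤ} (hν : ν 0 + ν 1 + ν 2 = 0) :
    F g' '' Tl G N t ν g = Tl G N t (fun i => g'.2 * ν (g'.1 i)) (g'⁻¹ * g) := by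
  have s : (g'.2 : ℤ) * ν (g'.1 0) + g'.2 * ν (g'.1 1) + g'.2 * ν (g'.1 2) = 0 := by
    rw [← mul_add, ← mul_add, psum, hν, mul_zero]
  have hV : F0 g' (V ν) = V (fun i => g'.2 * ν (g'.1 i)) := co_inj fun i => by
    rw [co_V s, co_F0, co_V hν]
    push_cast
    ring
  rw [← (F g').preimage_symm]
  ext p
  have e : ∀ h, F0 (g * h) (F0 g'⁻¹ p - V ν) =
      F0 (g'⁻¹ * g * h) (p - V (fun i => g'.2 * ν (g'.1 i))) := by
    intro h
    have : V ν = F0 g'⁻¹ (F0 g' (V ν)) := by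
      rw [F0_F0]
      exact co_inj fun i => by simp [co_F0]
    rw [this, ← F0_sub, F0_F0, hV, mul_assoc]
  exact exists_congr fun h => and_congr_right fun _ => exists_congr fun i => by
    change F0 (g * h) (F0 g'⁻¹ p - V ν) ∈ _ ↔ _
    rw [e]

theorem sym_F (g : H) : Sym (TT G N t) (F g) := by
  have : ∀ g : H, ∀ A ∈ TT G N t, F g '' A ∈ TT G N t := by
    rintro g _ ⟨ν, g', hν, rfl⟩
    refine ⟨_, _, ?_, F_Tl _ _ hν⟩
    rw [← mul_add, ← mul_add, psum, hν, mul_zero]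
  exact sym_of (this g) (this g⁻¹)

theorem cover (N : ℕ) (ht : 0 < t) (p : E) : ∃ (μ : Fin 3 → ℤ) (g : H) (i : Fin t),
    μ 0 + μ 1 + μ 2 = 0 ∧ F0 g (p - V μ) ∈ K N i := by
  obtain ⟨ν, s, hν⟩ : ∃ ν : Fin 3 → ℤ, ν 0 + ν 1 + ν 2 = 0 ∧
      ∀ i j, co p i - ν i - (co p j - ν j) ≤ 1 := by
    have s : co p 2 = -co p 0 - co p 1 := by linarith [co_sum p]
    have key : ∀ a b : ℤ, |co p 0 - a - (co p 1 - b)| ≤ 1 → |2 * (co p 0 - a) + (co p 1 - b)| ≤ 1 →
        |co p 0 - a + 2 * (co p 1 - b)| ≤ 1 → ∃ ν : Fin 3 → ℤ, ν 0 + ν 1 + ν 2 = 0 ∧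
        ∀ i j, co p i - ν i - (co p j - ν j) ≤ 1 := fun a b x y z => ⟨![a, b, -a - b], by simp,
      fun i j => by
        rw [abs_le] at x y z
        fin_cases i <;> fin_cases j <;> simp [s] <;> linarith⟩
    have := Int.floor_le (co p 0)
    have := Int.floor_le (co p 1)
    have := Int.lt_floor_add_one (co p 0)
    have := Int.lt_floor_add_one (co p 1)
    generalize ⌊co p 0⌋ = a, ⌊co p 1⌋ = b at *
    rcases le_total (co p 0 - a) (co p 1 - b) with h | h
    · rcases le_total (co p 0 - a + 2 * (co p 1 - b)) 1 with h1 | h1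
      · refine key a b ?_ ?_ ?_ <;> rw [abs_le] <;> constructor <;> linarith
      · rcases le_total (2 * (co p 0 - a) + (co p 1 - b)) 2 with h2 | h2
        · refine key a (b + 1) ?_ ?_ ?_ <;> rw [abs_le] <;> push_cast <;> constructor <;> linarith
        · refine key (a + 1) (b + 1) ?_ ?_ ?_ <;> rw [abs_le] <;> push_cast <;> constructor <;>
            linarith
    · rcases le_total (2 * (co p 0 - a) + (co p 1 - b)) 1 with h1 | h1
      · refine key a b ?_ ?_ ?_ <;> rw [abs_le] <;> constructor <;> linarith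
      · rcases le_total (co p 0 - a + 2 * (co p 1 - b)) 2 with h2 | h2
        · refine key (a + 1) b ?_ ?_ ?_ <;> rw [abs_le] <;> push_cast <;> constructor <;> linarith
        · refine key (a + 1) (b + 1) ?_ ?_ ?_ <;> rw [abs_le] <;> push_cast <;> constructor <;>
            linarith
  have hz : ∀ i j, co (p - V ν) i - co (p - V ν) j ≤ 1 := fun i j => by
    simpa only [co_sub, Pi.sub_apply, co_V s] using hν i j
  obtain ⟨g, a, b, c⟩ : ∃ g : H, 0 ≤ co (F0 g (p - V ν)) 1 ∧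
      co (F0 g (p - V ν)) 1 ≤ co (F0 g (p - V ν)) 0 ∧
      co (F0 g (p - V ν)) 0 - co (F0 g (p - V ν)) 2 ≤ 1 := by
    generalize p - V ν = z at hz
    have m := Tuple.monotone_sort (co z)
    have m1 := m (show (0 : Fin 3) ≤ 1 by decide)
    have m2 := m (show (1 : Fin 3) ≤ 2 by decide)
    simp only [Function.comp] at m1 m2
    have m3 := hz (Tuple.sort (co z) 2) (Tuple.sort (co z) 0)
    rcases le_total (co z (Tuple.sort (co z) 1)) 0 with h | h
    · exact ⟨(Tuple.sort (co z), -1), by simpa [co_F0] using ⟨h, m1, by linarith⟩⟩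
    · exact ⟨(Tuple.sort (co z) * swap 0 2, 1), by
        simpa [co_F0, swap_apply_of_ne_of_ne] using ⟨h, m2, by linarith⟩⟩
  have s2 := co_sum (F0 g (p - V ν))
  obtain ⟨i, d, e⟩ : ∃ i : Fin t, (i : ℝ) ≤ t * (2 * co (F0 g (p - V ν)) 0 + co (F0 g (p - V ν)) 1) ∧
      t * (2 * co (F0 g (p - V ν)) 0 + co (F0 g (p - V ν)) 1) ≤ i + 1 := by
    have h0 : 0 ≤ 2 * co (F0 g (p - V ν)) 0 + co (F0 g (p - V ν)) 1 := by linarith
    have h1 : 2 * co (F0 g (p - V ν)) 0 + co (F0 g (p - V ν)) 1 ≤ 1 := by linarith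
    generalize 2 * co (F0 g (p - V ν)) 0 + co (F0 g (p - V ν)) 1 = τ at *
    have h2 : 0 ≤ t * τ := by positivity
    by_cases q : ⌊t * τ⌋₊ < t
    · exact ⟨⟨_, q⟩, Nat.floor_le h2, (Nat.lt_floor_add_one _).le⟩
    · refine ⟨⟨t - 1, by omega⟩, ?_, ?_⟩ <;> simp only [Nat.cast_pred ht]
      · linarith [(Nat.le_floor_iff h2).mp (not_lt.mp q)]
      · nlinarith [(Nat.cast_nonneg t : (0 : ℝ) ≤ t)]
  have sl : lam N i (g.1⁻¹ 0) + lam N i (g.1⁻¹ 1) + lam N i (g.1⁻¹ 2) = 0 := by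
    rw [psum]
    simp [lam]
    ring
  have s3 : (ν 0 - g.2 * lam N i (g.1⁻¹ 0)) + (ν 1 - g.2 * lam N i (g.1⁻¹ 1)) +
      (ν 2 - g.2 * lam N i (g.1⁻¹ 2)) = 0 := by linear_combination s - g.2 * sl
  refine ⟨fun l => ν l - g.2 * lam N i (g.1⁻¹ l), g, i, s3, ?_⟩
  have : ∀ l, co (F0 g (p - V fun l => ν l - g.2 * lam N i (g.1⁻¹ l))) l =
      co (F0 g (p - V ν)) l + lam N i l := fun l => by
    simp only [co_F0, co_sub, Pi.sub_apply, co_V s,
      co_V (μ := fun l => ν l - g.2 * lam N i (g.1⁻¹ l)) s3]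
    rcases Int.units_eq_one_or g.2 with e | e <;> simp [e] <;> ring
  simp only [K, mem_ofPred_eq, this]
  simp only [lam, Matrix.cons_val_zero, Matrix.cons_val_one]
  push_cast
  refine ⟨?_, ?_, ?_, ?_⟩ <;> linarith

theorem uniq {p : E} (hp : Gen p) {μ ν : Fin 3 → ℤ} {g g' : H} {i i' : Fin t}
    (sμ : μ 0 + μ 1 + μ 2 = 0) (sν : ν 0 + ν 1 + ν 2 = 0)
    (a : F0 g (p - V μ) ∈ K N i) (b : F0 g' (p - V ν) ∈ K N i') : μ = ν ∧ g = g' := by
  have main : ∀ (μ : Fin 3 → ℤ) (g : H) (i : Fin t), μ 0 + μ 1 + μ 2 = 0 →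
      F0 g (p - V μ) ∈ K N i → ∃ (κ : Fin 3 → ℤ) (d : E),
      κ 0 + κ 1 + κ 2 = 0 ∧ (∀ l, κ l = μ l + g.2 * lam N i (g.1⁻¹ l)) ∧
      d = F0 g (p - V κ) ∧ 0 < co d 1 ∧ co d 1 < co d 0 ∧ co d 0 - co d 2 < 1 ∧
      (i : ℝ) < t * (co d 0 - co d 2) ∧ t * (co d 0 - co d 2) < i + 1 := fun μ g i s h => by
    have sl : lam N i (g.1⁻¹ 0) + lam N i (g.1⁻¹ 1) + lam N i (g.1⁻¹ 2) = 0 := by
      rw [psum]
      simp [lam]
      ring
    have s3 : (μ 0 + g.2 * lam N i (g.1⁻¹ 0)) + (μ 1 + g.2 * lam N i (g.1⁻¹ 1)) +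
        (μ 2 + g.2 * lam N i (g.1⁻¹ 2)) = 0 := by linear_combination s + g.2 * sl
    refine ⟨fun l => μ l + g.2 * lam N i (g.1⁻¹ l), _, s3, fun _ => rfl, rfl, ?_⟩
    have e : ∀ l, co (F0 g (p - V μ)) l =
        co (F0 g (p - V fun l => μ l + g.2 * lam N i (g.1⁻¹ l))) l + lam N i l := fun l => by
      simp only [co_F0, co_sub, Pi.sub_apply, co_V s,
        co_V (μ := fun l => μ l + g.2 * lam N i (g.1⁻¹ l)) s3]
      rcases Int.units_eq_one_or g.2 with e | e <;> simp [e] <;> ring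
    change (fun l => μ l + g.2 * lam N i (g.1⁻¹ l)) 0 + (fun l => μ l + g.2 * lam N i (g.1⁻¹ l)) 1 +
      (fun l => μ l + g.2 * lam N i (g.1⁻¹ l)) 2 = 0 at s3
    generalize (fun l => μ l + g.2 * lam N i (g.1⁻¹ l)) = κ at *
    have G : ∀ l m, l ≠ m → ∀ a b n : ℤ, (a ≠ 0 ∨ b ≠ 0) →
        a * co (F0 g (p - V κ)) l + b * co (F0 g (p - V κ)) m ≠ n := fun l m lm a b n ab z => by
      simp only [co_F0, co_sub, Pi.sub_apply, co_V s3] at z
      refine hp.ne (g.1.injective.ne lm) (a := a * g.2) (b := b * g.2) (by simpa using ab)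
        (n + a * g.2 * κ (g.1 l) + b * g.2 * κ (g.1 m)) ?_
      push_cast
      linarith
    have k := K_le h
    have s2 := co_sum (F0 g (p - V κ))
    simp only [K, mem_ofPred_eq, e] at h k
    simp only [lam, Matrix.cons_val_zero, Matrix.cons_val_one] at h k
    push_cast at h k
    have tp : (t : ℤ) ≠ 0 := by have := i.pos; omega
    have g1 := G 1 0 (by decide) 1 0 0 (by simp)
    have g2 := G 1 0 (by decide) 1 (-1) 0 (by simp)
    have g3 := G 0 2 (by decide) 1 (-1) 1 (by simp)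
    have g4 := G 0 2 (by decide) t (-t) i (Or.inl tp)
    have g5 := G 0 2 (by decide) t (-t) (i + 1) (Or.inl tp)
    push_cast at g1 g2 g3 g4 g5
    generalize co (F0 g (p - V κ)) 0 = x, co (F0 g (p - V κ)) 1 = y, co (F0 g (p - V κ)) 2 = z at *
    obtain rfl : z = -x - y := by linarith
    refine ⟨lt_of_le_of_ne (by linarith) fun z => g1 (by linarith),
      lt_of_le_of_ne (by linarith) fun z => g2 (by linarith),
      lt_of_le_of_ne (by linarith) fun z => g3 (by linarith),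
      lt_of_le_of_ne (by linarith) fun z => g4 (by linarith),
      lt_of_le_of_ne (by linarith) fun z => g5 (by linarith)⟩
  obtain ⟨κ, d, s, e, hd, a1, a2, a3, a4, a5⟩ := main μ g i sμ a
  obtain ⟨κ', d', s', e', hd', b1, b2, b3, b4, b5⟩ := main ν g' i' sν b
  have dif : ∀ (g : H) (κ : Fin 3 → ℤ) (d : E), κ 0 + κ 1 + κ 2 = 0 → d = F0 g (p - V κ) →
      0 < co d 1 → co d 1 < co d 0 → co d 0 - co d 2 < 1 →
      ∀ l m, co p l - κ l - (co p m - κ m) < 1 := fun g κ d s hd a1 a2 a3 l m => by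
    have s2 := co_sum d
    have : ∀ l m, co d l - co d m < 1 := fun l m => by
      fin_cases l <;> fin_cases m <;> simp <;> linarith
    have x := this (g.1⁻¹ l) (g.1⁻¹ m)
    have y := this (g.1⁻¹ m) (g.1⁻¹ l)
    simp only [hd, co_F0, co_sub, Pi.sub_apply, co_V s, Perm.coe_inv, apply_symm_apply] at x y
    rcases Int.units_eq_one_or g.2 with e | e <;> simp [e] at x y <;> linarith
  have z : ∀ l m, κ l - κ' l - (κ m - κ' m) < 2 := fun l m => by
    have : ((κ l - κ' l - (κ m - κ' m) : ℤ) : ℝ) < 2 := by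
      push_cast
      linarith [dif g κ d s hd a1 a2 a3 m l, dif g' κ' d' s' hd' b1 b2 b3 l m]
    exact_mod_cast this
  obtain rfl : κ = κ' := by
    have := z 0 1
    have := z 0 2
    have := z 1 0
    have := z 1 2
    have := z 2 0
    have := z 2 1
    ext l
    fin_cases l <;> simp <;> omega
  have e1 : g⁻¹ * g' = 1 := chamber (x := co d) (y := co d') _
    (fun l => by rw [← co_F0, hd, F0_F0, mul_inv_cancel_left, hd']) (co_sum _) a1 a2 b1.le b2.le
  obtain rfl := inv_mul_eq_one.mp e1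
  rw [← hd] at hd'
  subst hd'
  have h1 : (i : ℝ) < i' + 1 := by linarith
  have h2 : (i' : ℝ) < i + 1 := by linarith
  norm_cast at h1 h2
  obtain rfl : i = i' := Fin.ext (by omega)
  refine ⟨?_, rfl⟩
  ext l
  linarith [e l, e' l]


theorem TT_countable : (TT G N t).Countable := by
  have : TT G N t ⊆ range fun x : (Fin 3 → ℤ) × H => Tl G N t x.1 x.2 := by
    rintro _ ⟨μ, g, -, rfl⟩
    exact ⟨(μ, g), rfl⟩
  exact (countable_range _).mono this

theorem tiling (ht : 0 < t) : Tiling (TT G N t) := by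
  refine ⟨TT_countable, ?_, eq_univ_of_forall fun p => ?_, ?_⟩
  · rintro _ ⟨μ, g, -, rfl⟩
    exact Tl_closed _ _
  · obtain ⟨μ, g, i, s, h⟩ := cover N ht p
    exact ⟨_, ⟨μ, g, s, rfl⟩, 1, G.one_mem, i, by rwa [mul_one]⟩
  · rintro _ ⟨μ, g, a, rfl⟩ _ ⟨ν, g', b, rfl⟩ ne
    refine disjoint_iff_inter_eq_empty.mpr (not_nonempty_iff_eq_empty.mp fun h => ne ?_)
    obtain ⟨p, x, y⟩ := gen.inter_open_nonempty _ (isOpen_interior.inter isOpen_interior) h
    obtain ⟨h1, hh1, i, hi⟩ := interior_subset x.1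
    obtain ⟨h2, hh2, j, hj⟩ := interior_subset x.2
    obtain ⟨rfl, e⟩ := uniq y a b hi hj
    refine Tl_eq _ _ ?_
    have : g⁻¹ * g' = h1 * h2⁻¹ := by
      rw [inv_mul_eq_iff_eq_mul, ← mul_assoc, e, mul_inv_cancel_right]
    rw [this]
    exact G.mul_mem hh1 (G.inv_mem hh2)

/-- Each tile is the image of the tile `Tl G N t 0 1` under a symmetry of the tiling. -/
theorem exists_sym {A : Set E} (hA : A ∈ TT G N t) :
    ∃ f : E ≃ᵢ E, Sym (TT G N t) f ∧ f '' Tl G N t 0 1 = A := by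
  obtain ⟨μ, g, s, rfl⟩ := hA
  refine ⟨(F g⁻¹).trans (IsometryEquiv.addLeft (V μ)), (sym_F _).trans (sym_add s), ?_⟩
  have h : ⇑((F g⁻¹).trans (IsometryEquiv.addLeft (V μ))) = (V μ + ·) ∘ F g⁻¹ := rfl
  rw [h, image_comp, F_Tl _ _ (by simp)]
  refine (add_Tl _ _ _).trans ?_
  congr 1
  · ext l
    simp
  · simp

theorem isohedral : Isohedral (TT G N t) := by
  intro A hA B hB
  obtain ⟨f, hf, rfl⟩ := exists_sym hA
  obtain ⟨g, hg, rfl⟩ := exists_sym hB
  refine ⟨f.symm.trans g, hf.symm.trans hg, ?_⟩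
  rw [image_image]
  simp

theorem C_disk (j : H × Fin t) : Nonempty (C N j ≃ₜ closedBall (0 : E) 1) :=
  ⟨(Homeomorph.setCongr (congrFun (F _).image_symm _).symm).trans
    (((F _).symm.toHomeomorph.image _).symm.trans (K_disk _).some)⟩

theorem exists_components {k : ℕ} {R : ℝ} (hk : Nat.card G * t = k) (hN : 2 + 2 * |R| < N) :
    ∃ (c : Fin k → Fin t) (D : Fin k → Set E),
      Cl (TT G N t) (Tl G N t 0 1) D c ∧ Good R D c := by
  have : Fintype G := Fintype.ofFinite _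
  have cd : Fintype.card (G × Fin t) = k := by
    rw [Fintype.card_prod, Fintype.card_fin, ← Nat.card_eq_fintype_card, hk]
  let e : Fin k ≃ G × Fin t := (Fintype.equivFinOfCardEq cd).symm
  let e' : Fin k → H × Fin t := fun i => (((e i).1 : H), (e i).2)
  have inj : e'.Injective := fun i j h => e.injective (Prod.ext (Subtype.ext (congrArg (·.1) h))
    (congrArg (·.2) h))
  have far : ∀ i j, i ≠ j → ∀ x ∈ C N (e' i), ∀ y ∈ C N (e' j), |R| < dist x y :=
    fun i j ne x hx y hy => by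
      have := C_far (inj.ne ne) hx hy
      linarith
  have mv : ∀ i j, (e i).2 = (e j).2 → ∃ f, Sym (TT G N t) f ∧ f '' Tl G N t 0 1 = Tl G N t 0 1 ∧
      f '' C N (e' i) = C N (e' j) := by
    intro i j h
    refine ⟨F ((e i).1 * (e j).1⁻¹ : H), sym_F _, ?_, ?_⟩
    · rw [F_Tl _ _ (by simp)]
      have h0 : (fun l => ((((e i).1 * (e j).1⁻¹ : H).2 : ℤˣ) : ℤ) *
          (0 : Fin 3 → ℤ) (((e i).1 * (e j).1⁻¹ : H).1 l)) = 0 := by
        ext l
        simp
      rw [h0, mul_one]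
      refine (Tl_eq _ _ ?_).symm
      rw [inv_one, one_mul]
      exact G.inv_mem (G.mul_mem (e i).1.2 (G.inv_mem (e j).1.2))
    · rw [F_C]
      congr 1
      exact Prod.ext (by simp [e']) h
  refine ⟨fun i => (e i).2, fun i => C N (e' i), ⟨fun i => C_disk _, fun i j ne => ?_, ?_,
    Prod.snd_surjective.comp e.surjective, fun i j => ⟨mv i j, fun ⟨f, _, _, h⟩ => noncong h⟩⟩,
    fun i => ?_, ?_, fun i j ne x hx y hy => (le_abs_self R).trans_lt (far i j ne x hx y hy),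
    fun i j => ⟨fun ⟨f, h⟩ => noncong h, fun h => (mv i j h).imp fun f hf => hf.2.2⟩⟩
  · refine disjoint_left.mpr fun x hx hy => ?_
    have := far i j ne x hx x hy
    rw [dist_self] at this
    linarith [abs_nonneg R]
  · rw [Tl_zero]
    exact (e.surjective.iUnion_comp fun j : G × Fin t => C N ((j.1 : H), j.2)).symm
  · change Convex ℝ (C N (e' i))
    rw [C_eq]
    exact convex_image _ (K_convex _)
  · intro i x hx y hy
    have := (K_diam_le (p := F0 _ x) (q := F0 _ y) hx hy).trans (D_le_one (e i).2)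
    have h1 : dist (F (e' i).1 x) (F (e' i).1 y) ≤ 1 := by
      rw [dist_eq_norm]
      exact (sq_le_one_iff₀ (norm_nonneg _)).1 this
    rwa [(F _).dist_eq] at h1

theorem exists_subgroup {m : ℕ} (hm : m ∣ 12) : ∃ G : Subgroup H, Nat.card G = m := by
  have pc : ∀ (A : Subgroup (Perm (Fin 3))) (B : Subgroup ℤˣ),
      Nat.card (A.prod B) = Nat.card A * Nat.card B := fun A B => by
    rw [Nat.card_congr (Subgroup.prodEquiv A B).toEquiv, Nat.card_prod]
  have c2 : Nat.card (⊤ : Subgroup ℤˣ) = 2 := by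
    rw [Subgroup.card_top, Nat.card_eq_fintype_card]
    rfl
  have c6 : Nat.card (⊤ : Subgroup (Perm (Fin 3))) = 6 := by
    rw [Subgroup.card_top, Nat.card_eq_fintype_card, Fintype.card_perm, Fintype.card_fin]
    rfl
  have d2 : Nat.card (Subgroup.zpowers (swap (0 : Fin 3) 1)) = 2 := by
    rw [Nat.card_zpowers]
    exact orderOf_eq_prime (by decide) (by decide)
  have d3 : Nat.card (Subgroup.zpowers (finRotate 3)) = 3 := by
    rw [Nat.card_zpowers]
    have : Fact (Nat.Prime 3) := ⟨Nat.prime_three⟩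
    exact orderOf_eq_prime (by decide) (by decide)
  have : m ≤ 12 := Nat.le_of_dvd (by norm_num) hm
  interval_cases m
  · omega
  · exact ⟨⊥, Subgroup.card_bot⟩
  · exact ⟨(⊥ : Subgroup _).prod ⊤, by rw [pc, c2, Subgroup.card_bot]⟩
  · exact ⟨(Subgroup.zpowers (finRotate 3)).prod ⊥, by rw [pc, d3, Subgroup.card_bot]⟩
  · exact ⟨(Subgroup.zpowers (swap (0 : Fin 3) 1)).prod ⊤, by rw [pc, c2, d2]⟩
  · omega
  · exact ⟨(⊤ : Subgroup _).prod ⊥, by rw [pc, c6, Subgroup.card_bot]⟩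
  · omega
  · omega
  · omega
  · omega
  · omega
  · exact ⟨(⊤ : Subgroup _).prod ⊤, by rw [pc, c6, c2]⟩

/-- For all `t ≥ 1` there is a `t`-class `12 t`-component tiling. More generally, for every divisor
`m` of `12` and every `R` there is a `t`-class `m t`-component tiling whose components are convex
sets of diameter at most `1`, such that any two components of one tile are at distance more than
`R`, and are congruent if and only if they are equivalent. -/
theorem result :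
    {t : ℕ | 0 < t ∧ ∃ T, ClassTiling (12 * t) t T} = {t | 0 < t} ∧
    ∀ (t m : ℕ) (R : ℝ), 0 < t → m ∣ 12 → ∃ T : Set (Set E), Tiling T ∧ Isohedral T ∧
      ∀ A ∈ T, ∃ (C : Fin (m * t) → Set E) (c : Fin (m * t) → Fin t), Cl T A C c ∧ Good R C c := by
  have main : ∀ (t m : ℕ) (R : ℝ), 0 < t → m ∣ 12 → ∃ T : Set (Set E), Tiling T ∧ Isohedral T ∧
      ∀ A ∈ T, ∃ (C : Fin (m * t) → Set E) (c : Fin (m * t) → Fin t), Cl T A C c ∧ Good R C c := by
    intro t m R ht hm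
    obtain ⟨G, hG⟩ := exists_subgroup hm
    obtain ⟨N, hN⟩ := exists_nat_gt (2 + 2 * |R|)
    refine ⟨TT G N t, tiling ht, isohedral, fun A hA => ?_⟩
    obtain ⟨f, hf, rfl⟩ := exists_sym hA
    obtain ⟨c, D, h1, h2⟩ := exists_components (G := G) (t := t) (k := m * t) (R := R)
      (by rw [hG]) hN
    exact ⟨fun i => f '' D i, c, h1.map hf, h2.map f⟩
  refine ⟨Subset.antisymm (fun t h => h.1) fun t ht => ⟨ht, ?_⟩, main⟩
  obtain ⟨T, h1, h2, h3⟩ := main t 12 0 ht dvd_rfl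
  exact ⟨T, h1, h2, fun A hA => by
    obtain ⟨C, c, h, -⟩ := h3 A hA
    exact ⟨C, c, h⟩⟩

end Pool.Agent.Results.MP_2d2d9d_co.Scattered
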